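import Pool.Agent.H3.SF.Tg1

/-!
# THEOREM S (MP_70ba79_ag), the field of the curve `G = 0`: lemmas
-/

set_option autoImplicit false

namespace Pool.Agent.H91.SFD

open MvPolynomial SC Pool.Agent.H27.LV
open Pool.Agent.H84.SM (dp cr dt)
open Pool.Agent.H92.SF Pool.Agent.H3.SF

/-- extension of a derivation to the field of fractions -/
theorem ext_der {k A L : Type} [Field k] [CommRing A] [IsDomain A] [Algebra k A] [Field L]
    [Algebra A L] [Algebra k L] [IsScalarTower k A L] [IsFractionRing A L]
    (δ : Derivation k A L) : ∃ D : Derivation k L L, ∀ a, D (algebraMap A L a) = δ a := by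
  have h1 : Algebra.FormallyEtale A L := Algebra.FormallyEtale.of_isLocalization (nonZeroDivisors A)
  let e := KaehlerDifferential.tensorKaehlerEquivOfFormallyEtale k A L
  let f : TensorProduct A L (KaehlerDifferential k A) →ₗ[L] L :=
    LinearMap.liftBaseChange L δ.liftKaehlerDifferential
  refine ⟨(f.comp e.symm.toLinearMap).compDer (KaehlerDifferential.D k L), fun a => ?_⟩
  show f (e.symm (KaehlerDifferential.D k L (algebraMap A L a))) = δ a
  rw [KaehlerDifferential.tensorKaehlerEquivOfFormallyEtale_symm_D_algebraMap]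
  simp [f]

/-- polynomials of degree at most `n` with the coefficient `c` of `X ^ n` -/
def WD {R : Type} [CommRing R] (n : ℕ) (p : Polynomial R) (c : R) : Prop :=
  p.natDegree ≤ n ∧ p.coeff n = c

theorem WD.mul {R : Type} [CommRing R] {n m : ℕ} {p q : Polynomial R} {c d : R} (hp : WD n p c)
    (hq : WD m q d) : WD (n + m) (p * q) (c * d) :=
  ⟨Polynomial.natDegree_mul_le.trans (add_le_add hp.1 hq.1), by
    rw [Polynomial.coeff_mul_add_eq_of_natDegree_le hp.1 hq.1, hp.2, hq.2]⟩

theorem WD.pow {R : Type} [CommRing R] {n : ℕ} {p : Polynomial R} {c : R} (hp : WD n p c)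
    (j : ℕ) : WD (j * n) (p ^ j) (c ^ j) := by
  induction j with
  | zero => exact ⟨by simp, by simp⟩
  | succ j ih =>
    have := ih.mul hp
    rw [pow_succ, pow_succ, Nat.succ_mul]
    exact this

theorem WD.sum {R ι : Type} [CommRing R] {n : ℕ} (s : Finset ι) (p : ι → Polynomial R) (c : ι → R)
    (h : ∀ i ∈ s, WD n (p i) (c i)) : WD n (∑ i ∈ s, p i) (∑ i ∈ s, c i) :=
  ⟨Polynomial.natDegree_sum_le_of_forall_le _ _ fun i hi => (h i hi).1, by
    rw [Polynomial.finsetSum_coeff]
    exact Finset.sum_congr rfl fun i hi => (h i hi).2⟩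

/-- substitution of `x + α T` in a homogeneous polynomial -/
theorem wd_subst {k R : Type} [Field k] [CommRing R] [Algebra k R] {e : ℕ}
    {N : MvPolynomial (Fin 3) k} (hN : N.IsHomogeneous e) (x : Fin 3 → R) (α : Fin 3 → k) :
    WD e (aeval (fun i => Polynomial.C (x i) + Polynomial.C (algebraMap k R (α i)) *
      Polynomial.X) N) (algebraMap k R (eval α N)) := by
  have h1 : ∀ i, WD 1 (Polynomial.C (x i) + Polynomial.C (algebraMap k R (α i)) * Polynomial.X)
      (algebraMap k R (α i)) := by
    intro i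
    refine ⟨?_, ?_⟩
    · compute_degree
    · simp [Polynomial.coeff_C]
  rw [aeval_def, eval₂_eq', eval_eq', map_sum]
  refine WD.sum _ _ _ fun d hd => ?_
  have hd' : d 0 + d 1 + d 2 = e := by
    have := hN (MvPolynomial.mem_support_iff.mp hd)
    rw [Finsupp.weight_apply, Finsupp.sum_fintype _ _ (by simp)] at this
    simpa [Fin.sum_univ_three] using this
  rw [Fin.prod_univ_three, Fin.prod_univ_three, map_mul, map_mul, map_mul, map_pow, map_pow,
    map_pow]
  have h0 : WD 0 (algebraMap k (Polynomial R) (coeff d N)) (algebraMap k R (coeff d N)) := by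
    rw [IsScalarTower.algebraMap_apply k R (Polynomial R)]
    exact ⟨by simp [Polynomial.algebraMap_eq], by simp [Polynomial.algebraMap_eq]⟩
  have h2 := h0.mul ((((h1 0).pow (d 0)).mul ((h1 1).pow (d 1))).mul ((h1 2).pow (d 2)))
  have h3 : 0 + (d 0 * 1 + d 1 * 1 + d 2 * 1) = e := by omega
  rw [h3] at h2
  exact h2

/-- a point outside the curve `N = 0` with last coordinate 1 -/
theorem exists_dir {k : Type} [Field k] [Infinite k] {e : ℕ} {N : MvPolynomial (Fin 3) k}
    (hN : N.IsHomogeneous e) (h0 : N ≠ 0) : ∃ α : Fin 3 → k, α 2 = 1 ∧ eval α N ≠ 0 := by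
  have h1 : N * X 2 ≠ 0 := mul_ne_zero h0 (X_ne_zero 2)
  obtain ⟨β, hβ⟩ : ∃ β, eval β (N * X 2) ≠ 0 := by
    by_contra h
    push Not at h
    exact h1 (MvPolynomial.funext fun β => by rw [h β, map_zero])
  rw [map_mul, eval_X] at hβ
  have h2 : β 2 ≠ 0 := right_ne_zero_of_mul hβ
  refine ⟨fun i => (β 2)⁻¹ * β i, by simp [h2], ?_⟩
  have h3 : eval (fun i => (β 2)⁻¹ * β i) N = (β 2)⁻¹ ^ e * eval β N := by
    rw [eval_eq', eval_eq', Finset.mul_sum]
    refine Finset.sum_congr rfl fun d hd => ?_
    have hd' : ∑ i, d i = e := by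
      have := hN (MvPolynomial.mem_support_iff.mp hd)
      rw [Finsupp.weight_apply, Finsupp.sum_fintype _ _ (by simp)] at this
      simpa using this
    simp only [mul_pow, Finset.prod_mul_distrib]
    rw [Finset.prod_pow_eq_pow_sum, hd']
    ring
  rw [h3]
  exact mul_ne_zero (pow_ne_zero _ (inv_ne_zero h2)) (left_ne_zero_of_mul hβ)

end Pool.Agent.H91.SFD
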