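import Pool.Agent.H62.HIL.Eig
import Pool.Agent.H91.SFD.Lem

/-!
# THEOREM S (MP_70ba79_ag), the field of the curve `G = 0`: integral elements
-/

set_option autoImplicit false

namespace Pool.Agent.H91.SFD

open MvPolynomial SC Pool.Agent.H27.LV
open Pool.Agent.H84.SM (dp cr dt)
open Pool.Agent.H92.SF Pool.Agent.H3.SF
open Pool.Agent.H62.HIL (itg_iff)
open scoped IntermediateField.algebraAdjoinAdjoin

section

variable {k F : Type} [Field k] [Field F] [Algebra k F]

theorem icl {n : ℕ} {v : Fin n → F} (hv : AlgebraicIndependent k v) :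
    IsIntegrallyClosed (Algebra.adjoin k (Set.range v)) :=
  have := Pool.Agent.H62.HIL.ufd hv
  inferInstance

/-- norms of integral elements are polynomials -/
theorem norm_itg {n : ℕ} {v : Fin n → F} (hv : AlgebraicIndependent k v) {a : F}
    (ha : Itg k v a) : ∃ p : MvPolynomial (Fin n) k,
    ((Algebra.norm (kF k v) a : kF k v) : F) = aeval v p := by
  have h1 : IsIntegral (Algebra.adjoin k (Set.range v)) a := itg_iff.mp ha
  have h2 := Algebra.isIntegral_norm (kF k v) h1
  have := icl hv
  obtain ⟨y, hy⟩ := IsIntegrallyClosed.isIntegral_iff.mp h2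
  obtain ⟨y, hyA⟩ := y
  have h3 : y ∈ Algebra.adjoin k (Set.range v) := hyA
  rw [Algebra.adjoin_range_eq_range_aeval] at h3
  obtain ⟨p, hp⟩ := h3
  refine ⟨p, ?_⟩
  rw [← hy]
  exact hp.symm

theorem itg_aev {ι : Type} (v : ι → F) (p : MvPolynomial ι k) : Itg k v (aeval v p) :=
  ((aeval v : MvPolynomial ι k →ₐ[k] F) : MvPolynomial ι k →+* F).isIntegralElem_map

theorem adj_le {ι : Type} (v : ι → F) : Algebra.adjoin k (Set.range v) ≤ Bb k v := by
  rw [Algebra.adjoin_le_iff]
  rintro x ⟨i, rfl⟩
  have h := itg_aev (k := k) v (X i)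
  rw [aeval_X] at h
  exact h

/-- the ring of integral elements is finitely generated -/
theorem ft_bb [CharZero k] {n : ℕ} {v : Fin n → F} (hv : AlgebraicIndependent k v)
    [FiniteDimensional (kF k v) F] : Algebra.FiniteType k (Bb k v) := by
  let A := Algebra.adjoin k (Set.range v)
  have i0 : IsIntegrallyClosed A := icl hv
  let i1 : Algebra A (Bb k v) := (Subalgebra.inclusion (adj_le v)).toAlgebra
  have i2 : IsScalarTower A (Bb k v) F := IsScalarTower.of_algebraMap_eq fun _ => rfl
  have i3 : IsScalarTower k A (Bb k v) := IsScalarTower.of_algebraMap_eq fun _ => rfl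
  have i4 : Algebra.FiniteType k A := by
    exact Algebra.FiniteType.adjoin_of_finite (Set.finite_range v)
  have i5 : IsNoetherianRing A := Algebra.FiniteType.isNoetherianRing k A
  have i6 : IsIntegralClosure (Bb k v) A F :=
    ⟨Subtype.val_injective, fun {x} => ⟨fun h => ⟨⟨x, itg_iff.mpr h⟩, rfl⟩, by
      rintro ⟨y, rfl⟩
      exact itg_iff.mp y.2⟩⟩
  have i7 : Module.Finite A (Bb k v) := IsIntegralClosure.finite A (kF k v) F (Bb k v)
  have i8 : Algebra.FiniteType A (Bb k v) := inferInstance
  exact Algebra.FiniteType.trans i4 i8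

end

end Pool.Agent.H91.SFD
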